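import Mathlib

/-!
# The magneto-spectral height can increase under finite lifts

The `9`-cube `Q₉` carries the signature with `A² = 9`, so `ν(Q₉) ≥ 9 - 3 = 6`. Let `C ⊆ 𝔽₂⁹` be the
code spanned by two words of weight `6` that meet in three places. The quotient `G = Q₉ / C`
is a bipartite `9`-regular simple graph with `128` vertices in which two vertices at distance two have
exactly two common neighbours. If a magnetic potential on `G` had `λ₁ > 6 - 1/100` then all the
`4`-cycles would have holonomy close to `-1`, and moving the first closed walk past the second one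
(`36 - 3 = 33` swaps of different letters) would give `1 ≈ -1`.
-/

set_option autoImplicit false

namespace Pool.Agent.Results.MP_cbccc2_co.LiftHigher

open Finset ComplexConjugate

/-- A magnetic potential on `G`: a unimodular function on the oriented edges with
`σ(y,x) = conj σ(x,y)` (the values at the other pairs play no role). -/
structure Potential {V : Type} (G : SimpleGraph V) where
  /-- the values -/
  val : V → V → ℂ
  norm_one : ∀ x y, G.Adj x y → ‖val x y‖ = 1
  symm : ∀ x y, G.Adj x y → val y x = conj (val x y)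

open Classical in
/-- The magnetic Laplacian `(Δ^σ f)(x) = ∑_{y ∼ x} (f(x) - σ(x,y) f(y))`. -/
noncomputable def lap {V : Type} [Fintype V] (G : SimpleGraph V) (σ : Potential G) (f : V → ℂ) :
    V → ℂ :=
  fun x => ∑ y, if G.Adj x y then f x - σ.val x y * f y else 0

/-- The smallest eigenvalue of `Δ^σ`. -/
noncomputable def lam1 {V : Type} [Fintype V] (G : SimpleGraph V) (σ : Potential G) : ℝ :=
  sInf {t : ℝ | ∃ f : V → ℂ, f ≠ 0 ∧ lap G σ f = fun x => (t : ℂ) * f x}

/-- The magneto-spectral height `ν(G)`. -/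
noncomputable def height {V : Type} [Fintype V] (G : SimpleGraph V) : ℝ :=
  ⨆ σ : Potential G, lam1 G σ

/-- `p : H → G` is a covering (for finite `W`, a finite lift). -/
structure IsLift {V W : Type} (H : SimpleGraph W) (G : SimpleGraph V) (p : W → V) : Prop where
  hom : ∀ x y, H.Adj x y → G.Adj (p x) (p y)
  surj : Function.Surjective p
  nbrs : ∀ x, Set.BijOn p (H.neighborSet x) (G.neighborSet (p x))

/-! ### Cayley graphs of elementary abelian `2`-groups with nine generators -/

section Cay

variable {Γ : Type} [AddCommGroup Γ] [Fintype Γ]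

/-- The data: nine distinct non-zero elements of an elementary abelian `2`-group. -/
structure Gens (Γ : Type) [AddCommGroup Γ] where
  /-- the generators -/
  h : Fin 9 → Γ
  inj : Function.Injective h
  ne : ∀ i, h i ≠ 0
  two : ∀ x : Γ, x + x = 0

/-- The Cayley graph. -/
def cay (g : Gens Γ) : SimpleGraph Γ where
  Adj x y := ∃ i, y = x + g.h i
  symm := ⟨by
    rintro x y ⟨i, rfl⟩
    exact ⟨i, by rw [add_assoc, g.two, add_zero]⟩⟩
  loopless := ⟨by
    rintro x ⟨i, hi⟩
    exact g.ne i (by simpa using hi.symm)⟩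

omit [Fintype Γ] in
theorem cay_adj (g : Gens Γ) (x : Γ) (i : Fin 9) : (cay g).Adj x (x + g.h i) := ⟨i, rfl⟩

open Classical in
theorem sum_adj (g : Gens Γ) (x : Γ) (F : Γ → ℂ) :
    (∑ y, if (cay g).Adj x y then F y else 0) = ∑ i, F (x + g.h i) := by
  have h1 : (∑ i, F (x + g.h i)) = ∑ y ∈ Finset.univ.image (fun i => x + g.h i), F y := by
    rw [Finset.sum_image]
    intro i _ j _ hij
    exact g.inj (add_left_cancel hij)
  rw [h1, ← Finset.sum_filter]
  congr 1
  ext y
  simp only [Finset.mem_filter, Finset.mem_univ, true_and, Finset.mem_image]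
  constructor
  · rintro ⟨i, rfl⟩; exact ⟨i, rfl⟩
  · rintro ⟨i, rfl⟩; exact ⟨i, rfl⟩

/-- The weights of the edges. -/
def s (g : Gens Γ) (σ : Potential (cay g)) (i : Fin 9) (x : Γ) : ℂ := σ.val x (x + g.h i)

/-- The magnetic adjacency operator. -/
noncomputable def adj (g : Gens Γ) (σ : Potential (cay g)) (f : Γ → ℂ) : Γ → ℂ :=
  fun x => ∑ i, s g σ i x * f (x + g.h i)

theorem lap_eq (g : Gens Γ) (σ : Potential (cay g)) (f : Γ → ℂ) (x : Γ) :
    lap (cay g) σ f x = 9 * f x - adj g σ f x := by
  classical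
  unfold lap adj
  rw [sum_adj g x (fun y => f x - σ.val x y * f y), Finset.sum_sub_distrib]
  simp [s]

omit [Fintype Γ] in
theorem norm_s (g : Gens Γ) (σ : Potential (cay g)) (i : Fin 9) (x : Γ) : ‖s g σ i x‖ = 1 :=
  σ.norm_one _ _ (cay_adj g x i)

omit [Fintype Γ] in
theorem s_back (g : Gens Γ) (σ : Potential (cay g)) (i : Fin 9) (x : Γ) :
    s g σ i (x + g.h i) = conj (s g σ i x) := by
  unfold s
  rw [← σ.symm _ _ (cay_adj g x i)]
  rw [add_assoc, g.two, add_zero]

/-! ### The spectrum is bounded -/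

theorem eig_bound (g : Gens Γ) (σ : Potential (cay g)) (t : ℝ) (f : Γ → ℂ) (hf : f ≠ 0)
    (h : lap (cay g) σ f = fun x => (t : ℂ) * f x) : |t| ≤ 18 := by
  obtain ⟨x, -, hx⟩ := Finset.exists_max_image Finset.univ (fun x => ‖f x‖) ⟨0, Finset.mem_univ _⟩
  have hpos : 0 < ‖f x‖ := by
    by_contra hcon
    apply hf
    funext y
    have := hx y (Finset.mem_univ _)
    have h0 : ‖f y‖ ≤ 0 := this.trans (not_lt.mp hcon)
    simpa using h0
  have h1 := congrFun h x
  rw [lap_eq] at h1
  have h2 : ‖(t : ℂ) * f x‖ ≤ 18 * ‖f x‖ := by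
    rw [← h1]
    calc ‖9 * f x - adj g σ f x‖ ≤ ‖9 * f x‖ + ‖adj g σ f x‖ := norm_sub_le _ _
      _ ≤ 9 * ‖f x‖ + ∑ i : Fin 9, ‖s g σ i x * f (x + g.h i)‖ := by
          refine add_le_add ?_ (norm_sum_le _ _)
          rw [norm_mul]; norm_num
      _ ≤ 9 * ‖f x‖ + ∑ i : Fin 9, ‖f x‖ := by
          refine add_le_add le_rfl (Finset.sum_le_sum fun i _ => ?_)
          rw [norm_mul, norm_s, one_mul]
          exact hx _ (Finset.mem_univ _)
      _ = 18 * ‖f x‖ := by simp; ring
  rw [norm_mul, Complex.norm_real, Real.norm_eq_abs] at h2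
  exact le_of_mul_le_mul_right h2 hpos

theorem lam1_le (g : Gens Γ) (σ : Potential (cay g)) : lam1 (cay g) σ ≤ 18 := by
  unfold lam1
  by_cases hne : {t : ℝ | ∃ f : Γ → ℂ, f ≠ 0 ∧ lap (cay g) σ f = fun x => (t : ℂ) * f x}.Nonempty
  · obtain ⟨t, ht⟩ := hne
    refine (csInf_le ⟨-18, ?_⟩ ht).trans ?_
    · rintro u ⟨f, hf, h⟩
      exact (abs_le.mp (eig_bound g σ u f hf h)).1
    · obtain ⟨f, hf, h⟩ := ht
      exact (abs_le.mp (eig_bound g σ t f hf h)).2
  · rw [Set.not_nonempty_iff_eq_empty.mp hne]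
    simp

theorem lam1_le_eig (g : Gens Γ) (σ : Potential (cay g)) (t : ℝ) (f : Γ → ℂ) (hf : f ≠ 0)
    (h : lap (cay g) σ f = fun x => (t : ℂ) * f x) : lam1 (cay g) σ ≤ t := by
  refine csInf_le ⟨-18, ?_⟩ ⟨f, hf, h⟩
  rintro u ⟨f, hf, h⟩
  exact (abs_le.mp (eig_bound g σ u f hf h)).1

/-! ### The quadratic form -/

/-- The squared norm. -/
noncomputable def nrm (f : Γ → ℂ) : ℝ := ∑ x, ‖f x‖ ^ 2

omit [AddCommGroup Γ] in
theorem nrm_nonneg (f : Γ → ℂ) : 0 ≤ nrm f := Finset.sum_nonneg fun _ _ => by positivity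

/-- The sesquilinear form of the magnetic adjacency operator. -/
noncomputable def B (g : Gens Γ) (σ : Potential (cay g)) (f k : Γ → ℂ) : ℂ :=
  ∑ x, conj (f x) * adj g σ k x

theorem B_symm (g : Gens Γ) (σ : Potential (cay g)) (f k : Γ → ℂ) :
    B g σ f k = conj (B g σ k f) := by
  unfold B adj
  rw [map_sum]
  simp only [map_mul, map_sum, Complex.conj_conj, Finset.mul_sum]
  rw [Finset.sum_comm]
  conv_rhs => rw [Finset.sum_comm]
  refine Finset.sum_congr rfl fun i _ => ?_
  rw [← Equiv.sum_comp (Equiv.addRight (g.h i))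
    (fun x => k x * (conj (s g σ i x) * conj (f (x + g.h i))))]
  refine Finset.sum_congr rfl fun x _ => ?_
  simp only [Equiv.coe_addRight]
  rw [s_back, Complex.conj_conj, add_assoc, g.two, add_zero]
  ring

omit [Fintype Γ] in
theorem adj_add (g : Gens Γ) (σ : Potential (cay g)) (f k : Γ → ℂ) :
    adj g σ (f + k) = adj g σ f + adj g σ k := by
  funext x
  simp [adj, mul_add, Finset.sum_add_distrib]

omit [Fintype Γ] in
theorem adj_smul (g : Gens Γ) (σ : Potential (cay g)) (c : ℂ) (f : Γ → ℂ) :
    adj g σ (c • f) = c • adj g σ f := by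
  funext x
  simp only [adj, Pi.smul_apply, smul_eq_mul, Finset.mul_sum]
  refine Finset.sum_congr rfl fun i _ => ?_
  ring

omit [Fintype Γ] in
theorem adj_sub (g : Gens Γ) (σ : Potential (cay g)) (f k : Γ → ℂ) :
    adj g σ (f - k) = adj g σ f - adj g σ k := by
  funext x
  simp [adj, mul_sub, Finset.sum_sub_distrib]

/-- The magnetic Laplacian on the Euclidean space. -/
noncomputable def T (g : Gens Γ) (σ : Potential (cay g)) :
    EuclideanSpace ℂ Γ →ₗ[ℂ] EuclideanSpace ℂ Γ where
  toFun f := WithLp.toLp 2 (fun x => 9 * f x - adj g σ f x)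
  map_add' f k := by
    ext x
    have := congrFun (adj_add g σ f k) x
    simp only [PiLp.add_apply] at *
    change 9 * (f x + k x) - adj g σ (f + k) x = _
    rw [this]
    simp only [Pi.add_apply]
    ring
  map_smul' c f := by
    ext x
    have := congrFun (adj_smul g σ c f) x
    change 9 * (c * f x) - adj g σ (c • f) x = c * (9 * f x - adj g σ f x)
    rw [this]
    simp only [Pi.smul_apply, smul_eq_mul]
    ring

omit [Fintype Γ] in
theorem T_apply (g : Gens Γ) (σ : Potential (cay g)) (f : EuclideanSpace ℂ Γ) (x : Γ) :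
    T g σ f x = 9 * f x - adj g σ f x := rfl

theorem T_symm (g : Gens Γ) (σ : Potential (cay g)) : (T g σ).IsSymmetric := by
  intro f k
  rw [PiLp.inner_apply, PiLp.inner_apply]
  have h := B_symm g σ f k
  simp only [T_apply, RCLike.inner_apply, map_sub, map_mul]
  have h1 : ∑ x, k x * (conj (9 : ℂ) * conj (f x) - conj (adj g σ f x)) =
      ∑ x, 9 * (k x * conj (f x)) - conj (B g σ k f) := by
    unfold B
    rw [map_sum, ← Finset.sum_sub_distrib]
    refine Finset.sum_congr rfl fun x _ => ?_
    rw [map_mul, Complex.conj_conj, map_ofNat]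
    ring
  have h2 : ∑ x, (9 * k x - adj g σ k x) * conj (f x) =
      ∑ x, 9 * (k x * conj (f x)) - B g σ f k := by
    unfold B
    rw [← Finset.sum_sub_distrib]
    refine Finset.sum_congr rfl fun x _ => ?_
    ring
  rw [h1, h2, h]

theorem T_re (g : Gens Γ) (σ : Potential (cay g)) (f : EuclideanSpace ℂ Γ) :
    RCLike.re (inner ℂ (T g σ f) f) = 9 * nrm f - (B g σ f f).re := by
  rw [T_symm, PiLp.inner_apply]
  simp only [T_apply, RCLike.inner_apply]
  unfold B nrm
  rw [RCLike.re_to_complex, Complex.re_sum, Complex.re_sum, Finset.mul_sum, ← Finset.sum_sub_distrib]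
  refine Finset.sum_congr rfl fun x _ => ?_
  rw [sub_mul, Complex.sub_re, mul_comm (adj g σ f x), mul_assoc, Complex.mul_conj,
    Complex.normSq_eq_norm_sq]
  simp [-Complex.ofReal_pow]

theorem ray (g : Gens Γ) (σ : Potential (cay g)) (f : Γ → ℂ) :
    (B g σ f f).re ≤ (9 - lam1 (cay g) σ) * nrm f := by
  by_cases hf : f = 0
  · subst hf
    have : nrm (0 : Γ → ℂ) = 0 := by simp [nrm]
    rw [this]
    simp [B]
  set F : EuclideanSpace ℂ Γ := WithLp.toLp 2 f with hF
  have hF0 : F ≠ 0 := by
    intro h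
    apply hf
    funext x
    have := congrArg (fun G : EuclideanSpace ℂ Γ => G x) h
    simpa [hF] using this
  have : Nontrivial (EuclideanSpace ℂ Γ) := ⟨⟨F, 0, hF0⟩⟩
  have hev := (T_symm g σ).hasEigenvalue_iInf_of_finiteDimensional
  set m : ℝ := ⨅ x : { x : EuclideanSpace ℂ Γ // x ≠ 0 },
    RCLike.re (inner ℂ (T g σ x) (x : EuclideanSpace ℂ Γ)) / ‖(x : EuclideanSpace ℂ Γ)‖ ^ 2 with hm
  obtain ⟨v, hv⟩ := hev.exists_hasEigenvector
  have hv1 := hv.apply_eq_smul
  have hv2 := hv.2
  have h1 : lam1 (cay g) σ ≤ m := by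
    refine lam1_le_eig g σ m v.ofLp ?_ ?_
    · intro h
      apply hv2
      ext x
      exact congrFun h x
    · funext x
      rw [lap_eq, ← T_apply, hv1]
      rfl
  have hnorm : ‖F‖ ^ 2 = nrm f := by
    rw [EuclideanSpace.norm_sq_eq]
    rfl
  have hpos : 0 < nrm f := by
    rw [← hnorm]
    have := norm_pos_iff.mpr hF0
    positivity
  have h2 : m ≤ RCLike.re (inner ℂ (T g σ F) F) / ‖F‖ ^ 2 := by
    refine ciInf_le ⟨-‖LinearMap.toContinuousLinearMap (T g σ)‖, ?_⟩
      (⟨F, hF0⟩ : { x : EuclideanSpace ℂ Γ // x ≠ 0 })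
    rintro _ ⟨⟨x, hx⟩, rfl⟩
    simp only
    have hxp := norm_pos_iff.mpr hx
    rw [le_div_iff₀ (by positivity)]
    have h3 : |RCLike.re (inner ℂ (T g σ x) x)| ≤ ‖T g σ x‖ * ‖x‖ :=
      (RCLike.abs_re_le_norm _).trans (norm_inner_le_norm _ _)
    have h4 : ‖T g σ x‖ ≤ ‖LinearMap.toContinuousLinearMap (T g σ)‖ * ‖x‖ :=
      (LinearMap.toContinuousLinearMap (T g σ)).le_opNorm x
    have h5 := (abs_le.mp h3).1
    nlinarith [mul_le_mul_of_nonneg_right h4 hxp.le]
  rw [T_re, hnorm, le_div_iff₀ hpos] at h2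
  have h6 : lam1 (cay g) σ * nrm f ≤ m * nrm f := mul_le_mul_of_nonneg_right h1 hpos.le
  have h7 : (B g σ F.ofLp F.ofLp).re = (B g σ f f).re := rfl
  have h8 : nrm F.ofLp = nrm f := rfl
  rw [h8] at h2
  linarith [h2, h6, h7]

/-! ### From the smallest eigenvalue to the holonomy of the squares -/

omit [Fintype Γ] in
/-- The two-step operator. -/
theorem adj_adj (g : Gens Γ) (σ : Potential (cay g)) (f : Γ → ℂ) (x : Γ) :
    adj g σ (adj g σ f) x =
      ∑ i, ∑ j, s g σ i x * s g σ j (x + g.h i) * f (x + (g.h i + g.h j)) := by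
  unfold adj
  refine Finset.sum_congr rfl fun i _ => ?_
  rw [Finset.mul_sum]
  refine Finset.sum_congr rfl fun j _ => ?_
  rw [add_assoc]
  ring

theorem nrm_adj (g : Gens Γ) (σ : Potential (cay g)) (k : Γ → ℂ) :
    nrm (adj g σ k) = (∑ x, conj (k x) * adj g σ (adj g σ k) x).re := by
  have h1 : (∑ x, conj (k x) * adj g σ (adj g σ k) x) = B g σ k (adj g σ k) := rfl
  rw [h1, B_symm, Complex.conj_re]
  unfold B nrm
  rw [Complex.re_sum]
  refine Finset.sum_congr rfl fun x _ => ?_
  rw [mul_comm, Complex.mul_conj, Complex.normSq_eq_norm_sq, Complex.ofReal_re]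

/-- The quadratic form bounds the operator. -/
theorem nrm_adj_le (g : Gens Γ) (σ : Potential (cay g)) (a : ℝ) (ha : 0 < a)
    (hB : ∀ f, |(B g σ f f).re| ≤ a * nrm f) (k : Γ → ℂ) : nrm (adj g σ k) ≤ a ^ 2 * nrm k := by
  set f : Γ → ℂ := ((1 / a : ℝ) : ℂ) • adj g σ k with hf
  have h1 := (abs_le.mp (hB (f + k))).2
  have h2 := (abs_le.mp (hB (f - k))).1
  have h3 : (B g σ (f + k) (f + k)).re - (B g σ (f - k) (f - k)).re = 4 * (B g σ f k).re := by
    have e1 : B g σ (f + k) (f + k) - B g σ (f - k) (f - k) = 2 * B g σ f k + 2 * B g σ k f := by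
      unfold B
      rw [adj_add, adj_sub, ← Finset.sum_sub_distrib, Finset.mul_sum, Finset.mul_sum,
        ← Finset.sum_add_distrib]
      refine Finset.sum_congr rfl fun x _ => ?_
      simp only [Pi.add_apply, Pi.sub_apply, map_add, map_sub]
      ring
    have e2 : (B g σ k f).re = (B g σ f k).re := by rw [B_symm, Complex.conj_re]
    have e3 := congrArg Complex.re e1
    simp only [Complex.sub_re, Complex.add_re, Complex.mul_re, Complex.re_ofNat, Complex.im_ofNat,
      zero_mul, sub_zero] at e3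
    linarith
  have h4 : nrm (f + k) + nrm (f - k) = 2 * nrm f + 2 * nrm k := by
    unfold nrm
    rw [← Finset.sum_add_distrib, Finset.mul_sum, Finset.mul_sum, ← Finset.sum_add_distrib]
    refine Finset.sum_congr rfl fun x _ => ?_
    have := parallelogram_law_with_norm ℝ (f x) (k x)
    simp only [Pi.add_apply, Pi.sub_apply]
    nlinarith [this]
  have h5 : (B g σ f k).re = 1 / a * nrm (adj g σ k) := by
    unfold B nrm
    rw [Complex.re_sum, Finset.mul_sum]
    refine Finset.sum_congr rfl fun x _ => ?_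
    rw [hf]
    simp only [Pi.smul_apply, smul_eq_mul, map_mul, Complex.conj_ofReal]
    rw [mul_assoc, Complex.re_ofReal_mul, mul_comm (conj _), Complex.mul_conj,
      Complex.normSq_eq_norm_sq, Complex.ofReal_re]
  have h6 : nrm f = 1 / a ^ 2 * nrm (adj g σ k) := by
    unfold nrm
    rw [Finset.mul_sum]
    refine Finset.sum_congr rfl fun x _ => ?_
    rw [hf]
    simp only [Pi.smul_apply, smul_eq_mul, norm_mul, Complex.norm_real, Real.norm_eq_abs]
    rw [mul_pow, sq_abs]
    ring
  have h7 : 4 * (1 / a * nrm (adj g σ k)) ≤ a * (2 * (1 / a ^ 2 * nrm (adj g σ k)) + 2 * nrm k) := by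
    rw [← h5, ← h6, ← h4, ← h3]
    linarith
  have h8 : a * (2 * (1 / a ^ 2 * nrm (adj g σ k)) + 2 * nrm k) =
      2 * (1 / a * nrm (adj g σ k)) + 2 * a * nrm k := by
    field_simp
  rw [h8] at h7
  have h9 : 1 / a * nrm (adj g σ k) ≤ a * nrm k := by linarith
  have h10 : nrm (adj g σ k) = a * (1 / a * nrm (adj g σ k)) := by field_simp
  rw [h10]
  calc a * (1 / a * nrm (adj g σ k)) ≤ a * (a * nrm k) := mul_le_mul_of_nonneg_left h9 ha.le
    _ = a ^ 2 * nrm k := by ring

/-- The holonomy defect of a square. -/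
theorem square (g : Gens Γ) (σ : Potential (cay g)) (a : ℝ) (ha : 0 < a)
    (hB : ∀ f, |(B g σ f f).re| ≤ a * nrm f)
    (hg : ∀ i j c d, c ≠ d → (g.h i + g.h j = g.h c + g.h d ↔ (i = c ∧ j = d) ∨ (i = d ∧ j = c)))
    (hg0 : ∀ i j, g.h i + g.h j = 0 ↔ i = j)
    (y : Γ) (c d : Fin 9) (hcd : c ≠ d) :
    ‖s g σ c y * s g σ d (y + g.h c) + s g σ d y * s g σ c (y + g.h d)‖ ≤ a ^ 2 - 9 := by
  classical
  set W := s g σ c y * s g σ d (y + g.h c) + s g σ d y * s g σ c (y + g.h d) with hW
  set y' := y + (g.h c + g.h d) with hy'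
  have hne : y' ≠ y := by
    intro h
    have : g.h c + g.h d = 0 := by
      rw [hy'] at h
      simpa using h
    exact hcd ((hg0 c d).mp this)
  set u : ℂ := if W = 0 then 1 else conj W / (‖W‖ : ℂ) with hu
  have hu1 : ‖u‖ = 1 := by
    rw [hu]
    split_ifs with h
    · simp
    · rw [norm_div, Complex.norm_conj, Complex.norm_real, norm_norm, div_self]
      exact norm_ne_zero_iff.mpr h
  have hu2 : (u * W).re = ‖W‖ := by
    rw [hu]
    split_ifs with h
    · simp [h]
    · rw [div_mul_eq_mul_div, mul_comm (conj W), Complex.mul_conj, Complex.normSq_eq_norm_sq,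
        ← Complex.ofReal_div, Complex.ofReal_re]
      have := norm_ne_zero_iff.mpr h
      field_simp
  set k : Γ → ℂ := fun z => (if z = y then 1 else 0) + u * (if z = y' then 1 else 0) with hk
  have hky : k y = 1 := by simp [hk, hne.symm]
  have hky' : k y' = u := by simp [hk, hne]
  have hk0 : ∀ z, z ≠ y → z ≠ y' → k z = 0 := by
    intro z h1 h2; simp [hk, h1, h2]
  have hsupp : ∀ F : Γ → ℂ, (∀ z, z ≠ y → z ≠ y' → F z = 0) → ∑ z, F z = F y + F y' := by
    intro F hF
    rw [← Finset.sum_subset (Finset.subset_univ {y, y'})]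
    · rw [Finset.sum_pair hne.symm]
    · intro z _ hz
      simp only [Finset.mem_insert, Finset.mem_singleton, not_or] at hz
      exact hF z hz.1 hz.2
  have hnk : nrm k = 2 := by
    have h1 : ((nrm k : ℝ) : ℂ) = ∑ z, ((‖k z‖ ^ 2 : ℝ) : ℂ) := by
      unfold nrm; push_cast; rfl
    have h2 := hsupp (fun z => ((‖k z‖ ^ 2 : ℝ) : ℂ)) (by
      intro z h1 h2; simp [hk0 z h1 h2])
    rw [h2, hky, hky', hu1] at h1
    have h3 : ((nrm k : ℝ) : ℂ) = ((2 : ℝ) : ℂ) := by rw [h1]; norm_num
    exact_mod_cast h3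
  -- general evaluation
  have heval : ∀ (x : Γ) (α β : ℂ), (∀ i j, k (x + (g.h i + g.h j)) =
      α * (if i = j then 1 else 0) + β * ((if i = c ∧ j = d then 1 else 0) +
        (if i = d ∧ j = c then 1 else 0))) →
      adj g σ (adj g σ k) x = 9 * α +
        β * (s g σ c x * s g σ d (x + g.h c) + s g σ d x * s g σ c (x + g.h d)) := by
    intro x α β hx
    rw [adj_adj]
    simp only [hx]
    have e1 : ∀ i j, s g σ i x * s g σ j (x + g.h i) * (α * (if i = j then 1 else 0) +
        β * ((if i = c ∧ j = d then 1 else 0) + (if i = d ∧ j = c then 1 else 0))) =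
        (if i = j then α * (s g σ i x * s g σ j (x + g.h i)) else 0) +
        (if i = c then (if j = d then β * (s g σ i x * s g σ j (x + g.h i)) else 0) else 0) +
        (if i = d then (if j = c then β * (s g σ i x * s g σ j (x + g.h i)) else 0) else 0) := by
      intro i j
      by_cases h1 : i = j
      · subst h1
        have h2 : ¬ (i = c ∧ i = d) := fun h => hcd (h.1.symm.trans h.2)
        have h3 : ¬ (i = d ∧ i = c) := fun h => hcd (h.2.symm.trans h.1)
        simp only [h2, h3, if_false, if_true]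
        by_cases h4 : i = c
        · subst h4
          simp [hcd]; ring
        · by_cases h5 : i = d
          · subst h5; simp [h4]; ring
          · simp [h4, h5]; ring
      · by_cases h2 : i = c
        · subst h2
          by_cases h3 : j = d
          · subst h3; simp [hcd]; ring
          · simp [h1, h3, hcd]
        · by_cases h3 : i = d
          · subst h3
            by_cases h4 : j = c
            · subst h4; simp [h1]; ring
            · simp [h1, h2, h4]
          · simp [h1, h2, h3]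
    simp only [e1, Finset.sum_add_distrib, Finset.sum_ite_eq, Finset.mem_univ, if_true]
    have e2 : ∀ i, s g σ i x * s g σ i (x + g.h i) = 1 := by
      intro i
      rw [s_back, Complex.mul_conj, Complex.normSq_eq_norm_sq, norm_s]
      simp
    have e3 : ∀ i, (∑ j, if i = c then (if j = d then β * (s g σ i x * s g σ j (x + g.h i)) else 0)
        else 0) = if i = c then β * (s g σ i x * s g σ d (x + g.h i)) else 0 := by
      intro i
      split_ifs with h
      · simp
      · simp
    have e4 : ∀ i, (∑ j, if i = d then (if j = c then β * (s g σ i x * s g σ j (x + g.h i)) else 0)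
        else 0) = if i = d then β * (s g σ i x * s g σ c (x + g.h i)) else 0 := by
      intro i
      split_ifs with h
      · simp
      · simp
    simp only [e2, e3, e4, Finset.sum_ite_eq', Finset.mem_univ, if_true]
    simp
    ring
  have hA1 : adj g σ (adj g σ k) y = 9 * 1 + u * W := by
    refine heval y 1 u ?_
    intro i j
    have h1 : (y + (g.h i + g.h j) = y) ↔ i = j := by
      rw [← hg0]; simp
    have h2 : (y + (g.h i + g.h j) = y') ↔ (i = c ∧ j = d) ∨ (i = d ∧ j = c) := by
      rw [← hg i j c d hcd, hy']; simp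
    simp only [hk, h1, h2, one_mul]
    congr 2
    by_cases h3 : i = c ∧ j = d
    · simp [h3, hcd]
    · simp [h3]
  have hA2 : adj g σ (adj g σ k) y' = 9 * u + 1 * (s g σ c y' * s g σ d (y' + g.h c) +
      s g σ d y' * s g σ c (y' + g.h d)) := by
    refine heval y' u 1 ?_
    intro i j
    have h1 : (y' + (g.h i + g.h j) = y') ↔ i = j := by
      rw [← hg0]; simp
    have h2 : (y' + (g.h i + g.h j) = y) ↔ (i = c ∧ j = d) ∨ (i = d ∧ j = c) := by
      rw [← hg i j c d hcd, hy']
      constructor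
      · intro h
        have h3 : g.h c + g.h d + (g.h i + g.h j) = 0 := by
          rw [add_assoc] at h
          simpa using h
        have h4 := congrArg (fun z => g.h c + g.h d + z) h3
        simp only [add_zero] at h4
        rw [← add_assoc, g.two, zero_add] at h4
        exact h4
      · intro h
        rw [h, add_assoc, g.two, add_zero]
    simp only [hk, h1, h2, one_mul]
    rw [add_comm]
    congr 1
    by_cases h3 : i = c ∧ j = d
    · simp [h3, hcd]
    · simp [h3]
  have hW' : s g σ c y' * s g σ d (y' + g.h c) + s g σ d y' * s g σ c (y' + g.h d) = conj W := by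
    have e1 : y' + g.h c = y + g.h d := by
      rw [hy', add_assoc, add_comm (g.h c) (g.h d), add_assoc, g.two, add_zero]
    have e2 : y' + g.h d = y + g.h c := by
      rw [hy', add_assoc, add_assoc, g.two, add_zero]
    have e3 : y' = (y + g.h d) + g.h c := by
      rw [hy', add_assoc, add_comm (g.h c) (g.h d)]
    have e4 : y' = (y + g.h c) + g.h d := by
      rw [hy', add_assoc]
    rw [e1, e2, s_back, s_back]
    have e5 : s g σ c y' = conj (s g σ c (y + g.h d)) := by rw [e3, s_back]
    have e6 : s g σ d y' = conj (s g σ d (y + g.h c)) := by rw [e4, s_back]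
    rw [e5, e6, hW]
    simp only [map_add, map_mul]
    ring
  have hsum : (∑ x, conj (k x) * adj g σ (adj g σ k) x) = 18 + u * W + conj (u * W) := by
    rw [hsupp _ (by intro z h1 h2; simp [hk0 z h1 h2]), hky, hky', hA1, hA2, hW']
    have : conj u * u = 1 := by
      rw [mul_comm, Complex.mul_conj, Complex.normSq_eq_norm_sq, hu1]; simp
    rw [map_mul, map_one]
    linear_combination 9 * this
  have h1 := nrm_adj_le g σ a ha hB k
  rw [nrm_adj, hsum, hnk] at h1
  simp only [Complex.add_re, Complex.conj_re, hu2] at h1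
  norm_num at h1
  linarith

/-! ### Words -/

/-- The transport along a word. -/
def P (g : Gens Γ) (σ : Potential (cay g)) : Γ → List (Fin 9) → ℂ
  | _, [] => 1
  | x, i :: L => s g σ i x * P g σ (x + g.h i) L

/-- The end point of a word. -/
def en (g : Gens Γ) : Γ → List (Fin 9) → Γ
  | x, [] => x
  | x, i :: L => en g (x + g.h i) L

omit [Fintype Γ] in
theorem P_append (g : Gens Γ) (σ : Potential (cay g)) (L M : List (Fin 9)) :
    ∀ x, P g σ x (L ++ M) = P g σ x L * P g σ (en g x L) M := by
  induction L with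
  | nil => intro x; simp [P, en]
  | cons i L ih => intro x; simp only [List.cons_append, P, en, ih, mul_assoc]

omit [Fintype Γ] in
theorem norm_P (g : Gens Γ) (σ : Potential (cay g)) (L : List (Fin 9)) :
    ∀ x, ‖P g σ x L‖ = 1 := by
  induction L with
  | nil => intro x; simp [P]
  | cons i L ih => intro x; simp only [P, norm_mul, norm_s, ih, mul_one]

/-- The number of letters different from `i`. -/
def cnt (i : Fin 9) (L : List (Fin 9)) : ℕ := (L.filter (fun l => l ≠ i)).length

/-- The number of pairs of different letters. -/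
def cnt2 (v w : List (Fin 9)) : ℕ := (v.map (fun i => cnt i w)).sum

omit [Fintype Γ] in
/-- Moving a letter past a word. -/
theorem move (g : Gens Γ) (σ : Potential (cay g)) (δ : ℝ)
    (hsq : ∀ y c d, c ≠ d →
      ‖s g σ c y * s g σ d (y + g.h c) + s g σ d y * s g σ c (y + g.h d)‖ ≤ δ)
    (i : Fin 9) (L M : List (Fin 9)) :
    ∀ x, ‖P g σ x (i :: (L ++ M)) - (-1) ^ cnt i L * P g σ x (L ++ i :: M)‖ ≤ cnt i L * δ := by
  induction L with
  | nil => intro x; simp [cnt]
  | cons l L ih =>
    intro x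
    by_cases hl : l = i
    · subst hl
      have h1 : cnt l (l :: L) = cnt l L := by simp [cnt]
      rw [h1]
      have h2 : P g σ x (l :: (l :: L ++ M)) - (-1) ^ cnt l L * P g σ x (l :: L ++ l :: M) =
          s g σ l x * (P g σ (x + g.h l) (l :: (L ++ M)) -
            (-1) ^ cnt l L * P g σ (x + g.h l) (L ++ l :: M)) := by
        simp only [List.cons_append, P]
        ring
      rw [h2, norm_mul, norm_s, one_mul]
      exact ih _
    · have h1 : cnt i (l :: L) = cnt i L + 1 := by simp [cnt, hl]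
      rw [h1]
      have e1 : x + g.h i + g.h l = x + g.h l + g.h i := by abel
      have h2 : P g σ x (i :: (l :: L ++ M)) - (-1) ^ (cnt i L + 1) * P g σ x (l :: L ++ i :: M) =
          (s g σ i x * s g σ l (x + g.h i) + s g σ l x * s g σ i (x + g.h l)) *
            P g σ (x + g.h l + g.h i) (L ++ M) -
          s g σ l x * (P g σ (x + g.h l) (i :: (L ++ M)) -
            (-1) ^ cnt i L * P g σ (x + g.h l) (L ++ i :: M)) := by
        simp only [List.cons_append, P]
        rw [e1, pow_succ]
        ring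
      rw [h2]
      refine (norm_sub_le _ _).trans ?_
      rw [norm_mul, norm_mul, norm_P, norm_s, mul_one, one_mul]
      push_cast
      have h3 := hsq x i l (Ne.symm hl)
      have h4 := ih (x + g.h l)
      linarith

omit [Fintype Γ] in
/-- Moving a word past a word. -/
theorem move2 (g : Gens Γ) (σ : Potential (cay g)) (δ : ℝ)
    (hsq : ∀ y c d, c ≠ d →
      ‖s g σ c y * s g σ d (y + g.h c) + s g σ d y * s g σ c (y + g.h d)‖ ≤ δ)
    (v w : List (Fin 9)) :
    ∀ x, ‖P g σ x (v ++ w) - (-1) ^ cnt2 v w * P g σ x (w ++ v)‖ ≤ cnt2 v w * δ := by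
  induction v with
  | nil => intro x; simp [cnt2]
  | cons i v ih =>
    intro x
    have h1 : cnt2 (i :: v) w = cnt i w + cnt2 v w := by simp [cnt2]
    rw [h1]
    have h2 : P g σ x (i :: v ++ w) - (-1) ^ (cnt i w + cnt2 v w) * P g σ x (w ++ i :: v) =
        s g σ i x * (P g σ (x + g.h i) (v ++ w) - (-1) ^ cnt2 v w * P g σ (x + g.h i) (w ++ v)) +
        (-1) ^ cnt2 v w * (P g σ x (i :: (w ++ v)) - (-1) ^ cnt i w * P g σ x (w ++ i :: v)) := by
      simp only [List.cons_append, P]
      rw [pow_add]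
      ring
    rw [h2]
    refine (norm_add_le _ _).trans ?_
    rw [norm_mul, norm_mul, norm_s, one_mul, norm_pow, norm_neg, norm_one, one_pow, one_mul]
    push_cast
    have h3 := ih (x + g.h i)
    have h4 := move g σ δ hsq i w v x
    linarith

/-- The estimate for the quotient. -/
theorem lam1_lt (g : Gens Γ) (χ : Γ → ℝ) (hχ1 : ∀ x, χ x ^ 2 = 1)
    (hχ2 : ∀ x i, χ (x + g.h i) = - χ x)
    (hg : ∀ i j c d, c ≠ d → (g.h i + g.h j = g.h c + g.h d ↔ (i = c ∧ j = d) ∨ (i = d ∧ j = c)))
    (hg0 : ∀ i j, g.h i + g.h j = 0 ↔ i = j)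
    (v w : List (Fin 9)) (hv : ∀ x, en g x v = x) (hw : ∀ x, en g x w = x)
    (hcnt : cnt2 v w = 33)
    (σ : Potential (cay g)) : lam1 (cay g) σ ≤ 6 - 1 / 100 := by
  by_contra hcon
  push Not at hcon
  have hup : ∀ f, (B g σ f f).re ≤ 3.01 * nrm f := by
    intro f
    refine (ray g σ f).trans (mul_le_mul_of_nonneg_right ?_ (nrm_nonneg f))
    norm_num at hcon ⊢
    linarith
  have hB : ∀ f, |(B g σ f f).re| ≤ 3.01 * nrm f := by
    intro f
    rw [abs_le]
    refine ⟨?_, hup f⟩
    have h1 := hup (fun x => (χ x : ℂ) * f x)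
    have h2 : nrm (fun x => (χ x : ℂ) * f x) = nrm f := by
      unfold nrm
      refine Finset.sum_congr rfl fun x _ => ?_
      rw [norm_mul, mul_pow, Complex.norm_real, Real.norm_eq_abs, sq_abs, hχ1, one_mul]
    have h3 : B g σ (fun x => (χ x : ℂ) * f x) (fun x => (χ x : ℂ) * f x) = - B g σ f f := by
      unfold B
      rw [← Finset.sum_neg_distrib]
      refine Finset.sum_congr rfl fun x _ => ?_
      have h4 : adj g σ (fun x => (χ x : ℂ) * f x) x = - (χ x : ℂ) * adj g σ f x := by
        unfold adj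
        rw [Finset.mul_sum]
        refine Finset.sum_congr rfl fun i _ => ?_
        change s g σ i x * ((χ (x + g.h i) : ℂ) * f (x + g.h i)) = _
        rw [hχ2]
        push_cast
        ring
      rw [h4, map_mul, Complex.conj_ofReal]
      have h5 : (χ x : ℂ) * (χ x : ℂ) = 1 := by
        have := hχ1 x
        rw [sq] at this
        exact_mod_cast this
      linear_combination (-(conj (f x)) * adj g σ f x) * h5
    rw [h2, h3, Complex.neg_re] at h1
    linarith
  have hsq : ∀ y c d, c ≠ d →
      ‖s g σ c y * s g σ d (y + g.h c) + s g σ d y * s g σ c (y + g.h d)‖ ≤ 0.0601 := by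
    intro y c d hcd
    have := square g σ 3.01 (by norm_num) hB hg hg0 y c d hcd
    norm_num at this ⊢
    linarith
  have h1 := move2 g σ 0.0601 hsq v w 0
  rw [P_append, P_append, hv, hw, hcnt] at h1
  have h2 : P g σ 0 v * P g σ 0 w - (-1) ^ 33 * (P g σ 0 w * P g σ 0 v) =
      2 * (P g σ 0 v * P g σ 0 w) := by
    norm_num
    ring
  rw [h2, norm_mul, norm_mul, norm_P, norm_P] at h1
  norm_num at h1

end Cay

/-! ### The cube -/

/-- The group of the `9`-cube. -/
abbrev Q : Type := Fin 9 → ZMod 2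

/-- The generators of the cube. -/
def gQ : Gens Q where
  h i := Pi.single i 1
  inj := by
    intro i j h
    by_contra hne
    have := congrFun h i
    simp [hne] at this
  ne i := by
    intro h
    have := congrFun h i
    simp at this
  two x := by
    funext i
    exact CharTwo.add_self_eq_zero (x i)

/-- The sign of an element of `ZMod 2`. -/
noncomputable def sg (a : ZMod 2) : ℝ := (-1) ^ a.val

theorem zmod_cases (a : ZMod 2) : a = 0 ∨ a = 1 := by
  revert a; decide

theorem val_one' : (1 : ZMod 2).val = 1 := rfl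

theorem sg_add_one (a : ZMod 2) : sg (a + 1) = - sg a := by
  rcases zmod_cases a with h | h
  · subst h; simp [sg, val_one']
  · subst h
    have h2 : (1 : ZMod 2) + 1 = 0 := by decide
    simp [sg, h2, val_one']

theorem sg_sq (a : ZMod 2) : sg a ^ 2 = 1 := by
  rcases zmod_cases a with h | h <;> subst h <;> simp [sg, val_one']

/-- The standard signature of the cube. -/
noncomputable def sgn (i : Fin 9) (x : Q) : ℝ := ∏ j, if j < i then sg (x j) else 1

theorem sgn_sq (i : Fin 9) (x : Q) : sgn i x ^ 2 = 1 := by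
  unfold sgn
  rw [← Finset.prod_pow]
  refine Finset.prod_eq_one fun j _ => ?_
  split_ifs
  · exact sg_sq _
  · norm_num

theorem sgn_add (i k : Fin 9) (x : Q) :
    sgn i (x + gQ.h k) = if k < i then - sgn i x else sgn i x := by
  have h1 : ∀ j : Fin 9, (if j < i then sg ((x + gQ.h k) j) else 1) =
      (if j < i then sg (x j) else 1) * (if j = k then (if k < i then (-1 : ℝ) else 1) else 1) := by
    intro j
    by_cases hj : j = k
    · subst hj
      by_cases hi : j < i
      · have : (x + gQ.h j) j = x j + 1 := by simp [gQ]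
        simp only [hi, if_true, this, sg_add_one]
        ring
      · simp [hi]
    · have : (x + gQ.h k) j = x j := by simp [gQ, hj]
      simp [this, hj]
  unfold sgn
  simp only [h1, Finset.prod_mul_distrib, Finset.prod_ite_eq', Finset.mem_univ, if_true]
  split_ifs <;> ring

open Classical in
/-- The values of the potential. -/
noncomputable def valQ (x y : Q) : ℂ := ∑ i, if y = x + gQ.h i then (sgn i x : ℂ) else 0

theorem valQ_at (x : Q) (i : Fin 9) : valQ x (x + gQ.h i) = sgn i x := by
  unfold valQ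
  rw [Finset.sum_eq_single i]
  · simp
  · intro j _ hj
    rw [if_neg]
    intro h
    exact hj (gQ.inj (add_left_cancel h)).symm
  · simp

/-- The potential on the cube. -/
noncomputable def σQ : Potential (cay gQ) where
  val := valQ
  norm_one := by
    rintro x _ ⟨i, rfl⟩
    rw [valQ_at, Complex.norm_real, Real.norm_eq_abs]
    have := sgn_sq i x
    rw [← sq_abs] at this
    have h0 := abs_nonneg (sgn i x)
    nlinarith
  symm := by
    rintro x _ ⟨i, rfl⟩
    have h1 : x = (x + gQ.h i) + gQ.h i := by rw [add_assoc, gQ.two, add_zero]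
    have h2 : valQ (x + gQ.h i) x = sgn i (x + gQ.h i) := by
      conv_lhs => rw [h1]
      rw [show x + gQ.h i + gQ.h i + gQ.h i = (x + gQ.h i) from by rw [← h1]]
      exact valQ_at _ i
    rw [h2, valQ_at, sgn_add]
    simp

theorem s_σQ (i : Fin 9) (x : Q) : s gQ σQ i x = sgn i x := valQ_at x i

theorem sum_antisymm (F : Fin 9 → Fin 9 → ℂ) (h : ∀ i j, i ≠ j → F i j + F j i = 0) :
    ∑ i, ∑ j, F i j = ∑ i, F i i := by
  have h1 : (∑ i, ∑ j, F i j) + (∑ i, ∑ j, F i j) = 2 * ∑ i, F i i := by
    conv_lhs => arg 2; rw [Finset.sum_comm]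
    rw [← Finset.sum_add_distrib, Finset.mul_sum]
    refine Finset.sum_congr rfl fun i _ => ?_
    rw [← Finset.sum_add_distrib, Finset.sum_eq_single i]
    · ring
    · intro j _ hj
      exact h i j hj.symm
    · simp
  linear_combination h1 / 2

theorem adj_adj_Q (f : Q → ℂ) (x : Q) : adj gQ σQ (adj gQ σQ f) x = 9 * f x := by
  rw [adj_adj, sum_antisymm]
  · have h1 : ∀ i, s gQ σQ i x * s gQ σQ i (x + gQ.h i) * f (x + (gQ.h i + gQ.h i)) = f x := by
      intro i
      rw [s_σQ, s_σQ, sgn_add, if_neg (lt_irrefl _), gQ.two, add_zero]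
      have : (sgn i x : ℂ) * (sgn i x : ℂ) = 1 := by
        have := sgn_sq i x
        rw [sq] at this
        exact_mod_cast this
      rw [this, one_mul]
    simp only [h1]
    simp
  · intro i j hij
    rw [s_σQ, s_σQ, s_σQ, s_σQ, sgn_add, sgn_add, add_comm (gQ.h j) (gQ.h i)]
    rcases lt_or_gt_of_ne hij with h | h
    · rw [if_pos h, if_neg (not_lt.mpr h.le)]
      push_cast
      ring
    · rw [if_neg (not_lt.mpr h.le), if_pos h]
      push_cast
      ring

theorem six_le : 6 ≤ lam1 (cay gQ) σQ := by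
  unfold lam1
  refine le_csInf ?_ ?_
  · set f0 : Q → ℂ := fun _ => 1 with hf0
    set k : Q → ℂ := fun x => adj gQ σQ f0 x + 3 * f0 x with hk
    have hf : f0 ≠ 0 := by
      intro h
      have := congrFun h 0
      simp [hf0] at this
    by_cases hk0 : k = 0
    · refine ⟨12, f0, hf, ?_⟩
      funext x
      rw [lap_eq]
      have := congrFun hk0 x
      simp only [hk, Pi.zero_apply] at this
      push_cast
      linear_combination -this
    · refine ⟨6, k, hk0, ?_⟩
      funext x
      rw [lap_eq]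
      have h1 : adj gQ σQ k x = 3 * k x := by
        have h2 : k = adj gQ σQ f0 + (3 : ℂ) • f0 := by funext y; simp [hk]
        rw [h2, adj_add, adj_smul]
        simp only [Pi.add_apply, Pi.smul_apply, smul_eq_mul, adj_adj_Q]
        ring
      rw [h1]
      push_cast
      ring
  · rintro t ⟨f, hf, h⟩
    have h1 : adj gQ σQ f = ((9 - t : ℝ) : ℂ) • f := by
      funext x
      have := congrFun h x
      rw [lap_eq] at this
      simp only [Pi.smul_apply, smul_eq_mul]
      push_cast
      linear_combination -this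
    obtain ⟨x, hx⟩ : ∃ x, f x ≠ 0 := by
      by_contra hcon
      push Not at hcon
      exact hf (funext hcon)
    have h2 := adj_adj_Q f x
    rw [h1, adj_smul, h1] at h2
    simp only [Pi.smul_apply, smul_eq_mul] at h2
    rw [← mul_assoc] at h2
    have h3 := mul_right_cancel₀ hx h2
    have h4 : (9 - t) * (9 - t) = 9 := by exact_mod_cast h3
    nlinarith

/-! ### The quotient of the cube by the code -/

/-- The group of the quotient. -/
abbrev K : Type := Fin 7 → ZMod 2

/-- The columns of a parity check matrix of the code. -/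
def hK : Fin 9 → K :=
  ![![1, 0, 0, 0, 0, 0, 0], ![0, 1, 0, 0, 0, 0, 0], ![0, 0, 1, 0, 0, 0, 0], ![0, 0, 0, 1, 0, 0, 0],
    ![0, 0, 0, 0, 1, 0, 0], ![1, 1, 1, 1, 1, 0, 0], ![0, 0, 0, 0, 0, 1, 0], ![0, 0, 0, 0, 0, 0, 1],
    ![1, 1, 1, 0, 0, 1, 1]]

theorem hK_inj : Function.Injective hK := by
  intro i j
  revert i j
  decide +kernel

/-- The generators of the quotient. -/
def gK : Gens K where
  h := hK
  inj := hK_inj
  ne := by decide +kernel
  two x := by
    funext i
    exact CharTwo.add_self_eq_zero (x i)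

theorem hK_pairs : ∀ i j c d, c ≠ d →
    (hK i + hK j = hK c + hK d ↔ (i = c ∧ j = d) ∨ (i = d ∧ j = c)) := by
  decide +kernel

theorem hK_zero : ∀ i j, hK i + hK j = 0 ↔ i = j := by
  decide +kernel

theorem hK_sum : ∀ i, ∑ k, hK i k = 1 := by
  decide +kernel

/-- The bipartition. -/
noncomputable def χ (x : K) : ℝ := sg (∑ k, x k)

theorem lam1_K (σ : Potential (cay gK)) : lam1 (cay gK) σ ≤ 6 - 1 / 100 := by
  refine lam1_lt gK χ (fun x => sg_sq _) ?_ hK_pairs hK_zero [0, 1, 2, 3, 4, 5] [3, 4, 5, 6, 7, 8]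
    ?_ ?_ (by decide) σ
  · intro x i
    have h1 : ∑ k, (x + gK.h i) k = ∑ k, x k + 1 := by
      have h2 : ∀ k, (x + gK.h i) k = x k + hK i k := fun k => rfl
      simp only [h2, Finset.sum_add_distrib, hK_sum]
    unfold χ
    rw [h1, sg_add_one]
  · intro x
    simp only [en]
    have h1 : gK.h 0 + (gK.h 1 + (gK.h 2 + (gK.h 3 + (gK.h 4 + gK.h 5)))) = 0 := by decide +kernel
    simp only [add_assoc]
    rw [h1, add_zero]
  · intro x
    simp only [en]
    have h1 : gK.h 3 + (gK.h 4 + (gK.h 5 + (gK.h 6 + (gK.h 7 + gK.h 8)))) = 0 := by decide +kernel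
    simp only [add_assoc]
    rw [h1, add_zero]

/-- The covering map. -/
def cov (x : Q) : K := ∑ i, x i • hK i

theorem cov_add (x : Q) (i : Fin 9) : cov (x + gQ.h i) = cov x + hK i := by
  unfold cov
  have h1 : ∀ j, (x + gQ.h i) j • hK j = x j • hK j + (if j = i then hK j else 0) := by
    intro j
    by_cases hj : j = i
    · subst hj
      have : (x + gQ.h j) j = x j + 1 := by simp [gQ]
      rw [this, add_smul, one_smul, if_pos rfl]
    · have : (x + gQ.h i) j = x j := by simp [gQ, hj]
      rw [this, if_neg hj, add_zero]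
  simp only [h1, Finset.sum_add_distrib, Finset.sum_ite_eq', Finset.mem_univ, if_true]

theorem cov_surj : ∀ y : K, cov ![y 0, y 1, y 2, y 3, y 4, 0, y 5, y 6, 0] = y := by
  decide +kernel

theorem isLift : IsLift (cay gQ) (cay gK) cov where
  hom := by
    rintro x _ ⟨i, rfl⟩
    exact ⟨i, cov_add x i⟩
  surj y := ⟨_, cov_surj y⟩
  nbrs x := by
    refine ⟨?_, ?_, ?_⟩
    · rintro _ ⟨i, rfl⟩
      exact ⟨i, cov_add x i⟩
    · rintro _ ⟨i, rfl⟩ _ ⟨j, rfl⟩ h
      rw [cov_add, cov_add] at h
      rw [hK_inj (add_left_cancel h)]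
    · rintro _ ⟨i, rfl⟩
      exact ⟨x + gQ.h i, ⟨i, rfl⟩, cov_add x i⟩

/-- **There are a finite graph `G` and a finite lift `H → G` with `ν(H) ≥ 6 > 6 - 1/100 ≥ ν(G)`.** -/
theorem result : ∃ (V W : Type) (_ : Fintype V) (_ : Fintype W) (G : SimpleGraph V)
    (H : SimpleGraph W) (p : W → V), IsLift H G p ∧
      height G ≤ 6 - 1 / 100 ∧ 6 ≤ height H ∧ height G < height H := by
  have h1 : height (cay gK) ≤ 6 - 1 / 100 := Real.iSup_le lam1_K (by norm_num)
  have h2 : 6 ≤ height (cay gQ) := by
    refine six_le.trans (le_ciSup (f := fun σ => lam1 (cay gQ) σ) ⟨18, ?_⟩ σQ)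
    rintro _ ⟨σ, rfl⟩
    exact lam1_le gQ σ
  refine ⟨K, Q, inferInstance, inferInstance, cay gK, cay gQ, cov, isLift, h1, h2, ?_⟩
  norm_num at h1 ⊢
  linarith

end Pool.Agent.Results.MP_cbccc2_co.LiftHigher
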